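import Pool.Agent.H362R2.RQ.PrimeAP

set_option autoImplicit false

/-! Divisors of Catalan numbers: for each `n` there are primes `p`, `q` such that `p * q * n` divides
the Catalan number with index `p * q + n`. -/

open Finset Filter Topology

namespace Pool.Agent.Q209.Cat

/-- Kummer: each index `i` with `p ^ i ≤ 2 (N % p ^ i)` is a carry. -/
theorem card_le {p N : ℕ} (hp : p.Prime) (S : Finset ℕ) (hS : ∀ i ∈ S, 1 ≤ i ∧ p ^ i ≤ 2 * (N % p ^ i)) :
    S.card ≤ (Nat.centralBinom N).factorization p := by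
  have h1 : Nat.log p (N + N) < max (Nat.log p (N + N) + 1) (S.sup id + 1) :=
    lt_of_lt_of_le (Nat.lt_succ_self _) (le_max_left _ _)
  have h2 := Nat.factorization_choose' (p := p) (n := N) (k := N) hp h1
  rw [Nat.centralBinom_eq_two_mul_choose, two_mul, h2]
  refine card_le_card fun i hi => ?_
  rw [mem_filter, mem_Ico]
  obtain ⟨h3, h4⟩ := hS i hi
  refine ⟨⟨h3, lt_of_lt_of_le ?_ (le_max_right _ _)⟩, by omega⟩
  exact Nat.lt_succ_of_le (Finset.le_sup (f := id) hi)

theorem pow_dvd_catalan {p N v a : ℕ} (hp : p.Prime) (ha : ¬ p ^ (a + 1) ∣ N + 1)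
    (h : v + a ≤ (Nat.centralBinom N).factorization p) : p ^ v ∣ catalan N := by
  have h0 : catalan N ≠ 0 := by
    intro h0
    have h1 := succ_mul_catalan_eq_centralBinom N
    rw [h0, mul_zero] at h1
    exact (Nat.centralBinom_pos N).ne h1
  rw [hp.pow_dvd_iff_le_factorization h0]
  rw [← succ_mul_catalan_eq_centralBinom N, Nat.factorization_mul (Nat.succ_ne_zero N) h0,
    Finsupp.add_apply] at h
  have h2 : (N.succ).factorization p ≤ a := by
    by_contra hcon
    exact ha ((hp.pow_dvd_iff_le_factorization (Nat.succ_ne_zero N)).2 (by omega))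
  omega

theorem part_p {p s n : ℕ} (hp : p.Prime) (hn : n + 1 < p) (hs : p ≤ 2 * s) (hsp : s < p) :
    p ∣ catalan (p * (p + s) + n) := by
  have h1 : (p * (p + s) + n) % p ^ 2 = p * s + n := by
    have h2 : p * (p + s) + n = (p * s + n) + p ^ 2 * 1 := by ring
    rw [h2, Nat.add_mul_mod_self_left, Nat.mod_eq_of_lt]
    nlinarith
  have h2 := card_le (N := p * (p + s) + n) hp {2} (by
    intro i hi
    rw [mem_singleton.1 hi, h1]
    refine ⟨by norm_num, ?_⟩
    nlinarith)
  have h3 := pow_dvd_catalan (N := p * (p + s) + n) (v := 1) (a := 0) hp (by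
    rw [zero_add, pow_one]
    intro h
    have h4 : p ∣ n + 1 := by
      have h5 : p * (p + s) + n + 1 = p * (p + s) + (n + 1) := by ring
      rw [h5] at h
      exact (Nat.dvd_add_right (dvd_mul_right p _)).1 h
    have := Nat.le_of_dvd (Nat.succ_pos n) h4
    omega) (by simpa using h2)
  simpa using h3

theorem part_q {p q n : ℕ} (hq : q.Prime) (hn : n + 1 < q) (hpq : p < q) (h2p : q ≤ 2 * p) :
    q ∣ catalan (p * q + n) := by
  have h1 : (p * q + n) % q ^ 2 = p * q + n := by
    rw [Nat.mod_eq_of_lt]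
    nlinarith
  have h2 := card_le (N := p * q + n) hq {2} (by
    intro i hi
    rw [mem_singleton.1 hi, h1]
    refine ⟨by norm_num, ?_⟩
    nlinarith)
  have h3 := pow_dvd_catalan (N := p * q + n) (v := 1) (a := 0) hq (by
    rw [zero_add, pow_one]
    intro h
    have h4 : q ∣ n + 1 := by
      have h5 : p * q + n + 1 = q * p + (n + 1) := by ring
      rw [h5] at h
      exact (Nat.dvd_add_right (dvd_mul_right q _)).1 h
    have := Nat.le_of_dvd (Nat.succ_pos n) h4
    omega) (by simpa using h2)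
  simpa using h3

theorem part_n {n N : ℕ} (hn : 0 < n) (hN : n ^ (2 * n + 4) ∣ N + n + 1) : n ∣ catalan N := by
  rw [Nat.dvd_iff_prime_pow_dvd_dvd]
  intro l k hl hk
  set v := n.factorization l with hv
  have hkv : k ≤ v := (hl.pow_dvd_iff_le_factorization hn.ne').1 hk
  rcases Nat.eq_zero_or_pos v with h0 | h0
  · have : k = 0 := by omega
    rw [this, pow_zero]
    exact one_dvd _
  have hlv : l ^ v ∣ n := (hl.pow_dvd_iff_le_factorization hn.ne').2 le_rfl
  have hlK : l ^ (v * (2 * n + 4)) ∣ N + n + 1 := by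
    rw [pow_mul]
    exact (pow_dvd_pow_of_dvd hlv _).trans hN
  have hl2 := hl.two_le
  refine (pow_dvd_pow l hkv).trans (pow_dvd_catalan (a := v) hl ?_ ?_)
  · intro h
    have h1 : l ^ (v + 1) ∣ N + n + 1 := (pow_dvd_pow l (by nlinarith)).trans hlK
    have h2 : N + n + 1 = (N + 1) + n := by ring
    rw [h2] at h1
    have h3 : l ^ (v + 1) ∣ n := (Nat.dvd_add_right h).1 h1
    have h4 := (hl.pow_dvd_iff_le_factorization hn.ne').1 h3
    omega
  · have hc : (Finset.Icc (2 * n + 2) (2 * n + 1 + 2 * v)).card = v + v := by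
      rw [Nat.card_Icc]
      omega
    rw [← hc]
    refine card_le hl _ fun i hi => ?_
    rw [mem_Icc] at hi
    refine ⟨by omega, ?_⟩
    have hiK : i ≤ v * (2 * n + 4) := by nlinarith
    have h1 : l ^ i ∣ N + n + 1 := (pow_dvd_pow l hiK).trans hlK
    have h2 : 2 * (n + 1) < l ^ i := by
      calc 2 * (n + 1) < 2 ^ (2 * (n + 1)) := Nat.lt_two_pow_self
        _ ≤ 2 ^ i := Nat.pow_le_pow_right (by norm_num) (by omega)
        _ ≤ l ^ i := Nat.pow_le_pow_left hl2 i
    obtain ⟨c, hc⟩ := h1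
    have hc0 : 0 < c := by
      rcases Nat.eq_zero_or_pos c with h | h
      · rw [h, mul_zero] at hc
        omega
      · exact h
    have h3 : N = (l ^ i - (n + 1)) + l ^ i * (c - 1) := by
      have h4 : l ^ i * c = l ^ i + l ^ i * (c - 1) := by
        conv_lhs => rw [show c = 1 + (c - 1) by omega]
        ring
      omega
    have h5 : N % l ^ i = l ^ i - (n + 1) := by
      rw [h3, Nat.add_mul_mod_self_left, Nat.mod_eq_of_lt]
      omega
    rw [h5]
    omega

theorem main (n : ℕ) (hn : 0 < n) (B : ℕ) : ∃ p q : ℕ, p.Prime ∧ q.Prime ∧ B < p ∧ p < q ∧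
    (p * q).Coprime n ∧ p * q * n ∣ catalan (p * q + n) := by
  set M := n ^ (2 * n + 4) with hM
  have hM0 : 0 < M := pow_pos hn _
  obtain ⟨c, hc1, hc2⟩ : ∃ c : ℕ, c.Coprime M ∧ M ∣ c + n + n + 1 := by
    -- c = (2n+1)(M - 1) + ... : a residue of -(2n+1)
    refine ⟨(2 * n + 1) * (M * 2 - 1), ?_, ?_⟩
    · refine Nat.Coprime.mul_left ?_ ?_
      · refine Nat.Coprime.pow_right _ ?_
        have h1 : 2 * n + 1 = 1 + n * 2 := by ring
        rw [h1, Nat.coprime_add_mul_left_left]
        exact Nat.coprime_one_left n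
      · have h1 : Nat.Coprime (M * 2 - 1) (M * 2) := by
          have h2 : M * 2 = (M * 2 - 1) + 1 := by omega
          have h3 : Nat.Coprime (M * 2 - 1) ((M * 2 - 1) + 1) :=
            Nat.coprime_self_add_right.2 (Nat.coprime_one_right _)
          rwa [← h2] at h3
        exact Nat.Coprime.coprime_mul_right_right h1
    · refine ⟨(2 * n + 1) * 2, ?_⟩
      have h1 : (2 * n + 1) * (M * 2 - 1) + (2 * n + 1) = (2 * n + 1) * (M * 2) := by
        have h2 : M * 2 = (M * 2 - 1) + 1 := by omega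
        conv_rhs => rw [h2]
        ring
      nlinarith
  have e1 := Pool.Agent.H362R2.RQ.exists_prime_mod M hM0 1 (Nat.coprime_one_left M) 1 one_pos
  have e2 := Pool.Agent.H362R2.RQ.exists_prime_mod M hM0 c hc1 (1 / 3) (by norm_num)
  obtain ⟨Y, hY⟩ := eventually_atTop.1 e2
  obtain ⟨y, hy1, hy2, hy3⟩ := (e1.and ((eventually_ge_atTop (Y : ℝ)).and
    (eventually_ge_atTop ((B + n + 3 : ℕ) : ℝ)))).exists
  obtain ⟨p, hp, hpM, hyp, -⟩ := hy1
  have hpn : B + n + 3 < p := by
    have : ((B + n + 3 : ℕ) : ℝ) < (p : ℝ) := lt_of_le_of_lt hy3 hyp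
    exact_mod_cast this
  have hp0 : (0 : ℝ) < p := by exact_mod_cast hp.pos
  obtain ⟨q, hq, hqM, hq1, hq2⟩ := hY (3 / 2 * p) (by linarith)
  have hq1' : 3 * p < 2 * q := by
    have h : ((3 * p : ℕ) : ℝ) < ((2 * q : ℕ) : ℝ) := by
      push_cast
      linarith
    exact_mod_cast h
  have hq2' : q ≤ 2 * p := by
    have h : ((q : ℕ) : ℝ) ≤ ((2 * p : ℕ) : ℝ) := by
      push_cast
      linarith
    exact_mod_cast h
  have hqne : q ≠ 2 * p := by
    intro h
    have h2 : (2 * p).Prime := h ▸ hq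
    exact Nat.not_prime_mul (by norm_num) hp.one_lt.ne' h2
  have hN : M ∣ p * q + n + n + 1 := by
    have h1 : p * q ≡ 1 * c [MOD M] := hpM.mul hqM
    rw [one_mul] at h1
    have h2 : p * q + (n + n + 1) ≡ c + (n + n + 1) [MOD M] := h1.add_right _
    have h3 : c + (n + n + 1) ≡ 0 [MOD M] := (Nat.modEq_zero_iff_dvd).2 (by
      have : c + (n + n + 1) = c + n + n + 1 := by ring
      rw [this]
      exact hc2)
    have h4 := (Nat.modEq_zero_iff_dvd).1 (h2.trans h3)
    have : p * q + n + n + 1 = p * q + (n + n + 1) := by ring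
    rw [this]
    exact h4
  have cp : p.Coprime n := hp.coprime_iff_not_dvd.2 fun h => by
    have := Nat.le_of_dvd hn h
    omega
  have cq : q.Coprime n := hq.coprime_iff_not_dvd.2 fun h => by
    have := Nat.le_of_dvd hn h
    omega
  have cpq : p.Coprime q := (Nat.coprime_primes hp hq).2 (by omega)
  refine ⟨p, q, hp, hq, by omega, by omega, Nat.Coprime.mul_left cp cq, ?_⟩
  refine Nat.Coprime.mul_dvd_of_dvd_of_dvd (Nat.Coprime.mul_left cp cq) ?_ (part_n hn hN)
  refine Nat.Coprime.mul_dvd_of_dvd_of_dvd cpq ?_ (part_q hq (by omega) (by omega) hq2')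
  have h1 : q = p + (q - p) := by omega
  rw [h1]
  exact part_p hp (by omega) (by omega) (by omega)

end Pool.Agent.Q209.Cat
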